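import Pool.Agent.Q74.BT.Stm5

/-!
# Project BT, job MeanP: the mean number of popular levels in windows
-/

set_option autoImplicit false

namespace Pool.Agent.Q224.BT

open Finset
open Pool.Agent.Q158.Pair (T)
open Pool.Agent.Q74.AR (oc oc_per)
open Pool.Agent.Q74.KP (EE Pe EE_mono EE_sub EE_const EE_abs EE_nonneg)
open Pool.Agent.Q74.BL (nx T_add)
open Pool.Agent.Q74.BT

/-- sums of nonnegative periodic functions over intervals, two sides -/
theorem sum_per_abs {t : ℕ} {h : ℤ → ℝ} (hp : Pe t h) (h0 : ∀ x, 0 ≤ h x) (M : ℤ) (L : ℕ) :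
    |∑ x ∈ Ico M (M + L), h x - EE t h * L| ≤ EE t h * 2 ^ t := by
  rw [Pool.Agent.Q158.Pair.sum_Ico_int]
  obtain ⟨q, hq⟩ : ∃ q, q = L / 2 ^ t := ⟨_, rfl⟩
  have h2t : 0 < 2 ^ t := by positivity
  have hd := Nat.div_add_mod L (2 ^ t)
  have hm := Nat.mod_lt L h2t
  rw [← hq] at hd
  have hL1 : q * 2 ^ t ≤ L := by rw [hq]; exact Nat.div_mul_le_self L (2 ^ t)
  have hL2 : L ≤ (q + 1) * 2 ^ t := by
    have : (q + 1) * 2 ^ t = 2 ^ t * q + 2 ^ t := by ring
    omega
  have hb : ∀ q : ℕ, ∑ i ∈ range (q * 2 ^ t), h (M + i) = q * (2 ^ t * EE t h) := by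
    intro q
    have h2 := Pool.Agent.Q158.Pair.sum_block (2 ^ t) h2t h (fun x j => by
      have := hp x j
      push_cast
      exact this) q M
    rw [h2]
    have h3 : ∑ i ∈ range (2 ^ t), h i = 2 ^ t * EE t h := by
      unfold EE
      field_simp
    rw [h3]
  have h1 : ∑ i ∈ range L, h (M + i) ≤ ∑ i ∈ range ((q + 1) * 2 ^ t), h (M + i) :=
    sum_le_sum_of_subset_of_nonneg (range_subset_range.2 hL2) fun i _ _ => h0 _
  have h1' : ∑ i ∈ range (q * 2 ^ t), h (M + i) ≤ ∑ i ∈ range L, h (M + i) :=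
    sum_le_sum_of_subset_of_nonneg (range_subset_range.2 hL1) fun i _ _ => h0 _
  rw [hb] at h1 h1'
  have h4 : 0 ≤ EE t h := EE_nonneg t h0
  have c1 : (q : ℝ) * 2 ^ t ≤ L := by exact_mod_cast hL1
  have c2 : (L : ℝ) ≤ (q + 1) * 2 ^ t := by exact_mod_cast hL2
  have d1 : EE t h * ((q : ℝ) * 2 ^ t) ≤ EE t h * L := mul_le_mul_of_nonneg_left c1 h4
  have d2 : EE t h * (L : ℝ) ≤ EE t h * ((q + 1) * 2 ^ t) := mul_le_mul_of_nonneg_left c2 h4
  push_cast at h1
  rw [abs_le]
  constructor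
  · have e : EE t h * (((q : ℝ) + 1) * 2 ^ t) = q * (2 ^ t * EE t h) + EE t h * 2 ^ t := by ring
    linarith
  · have e : ((q : ℝ) + 1) * (2 ^ t * EE t h) = EE t h * (q * 2 ^ t) + EE t h * 2 ^ t := by ring
    linarith

theorem LP_per (σ : ℝ) (L t : ℕ) : Pe t (fun x => ((LP σ L t x).card : ℝ)) := by
  intro x j
  have h : ∀ i : ℕ, oc t (x + 2 ^ t * j + i) = oc t (x + i) := by
    intro i
    have e : x + 2 ^ t * j + (i : ℤ) = (x + i) + 2 ^ t * j := by ring
    rw [e, oc_per]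
  have h2 : LP σ L t (x + 2 ^ t * j) = LP σ L t x := by
    unfold LP LS
    simp only [h]
  simp only [h2]

theorem nx0 (t : ℕ) (x j : ℤ) : nx t x (0, j) = (oc t (x + j), T^[t] (x + j)) := by
  unfold nx
  simp

theorem LP_le_VV (σ : ℝ) (L t : ℕ) (x : ℤ) : (LP σ L t x).card ≤ (VV L t x).card := by
  have h : LS L t x = (VV L t x).image (fun z => (z.1 : ℤ)) := by
    unfold LS VV
    rw [image_image]
    apply image_congr
    intro j _
    simp only [Function.comp_apply, nx0]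
  calc (LP σ L t x).card ≤ (LS L t x).card := card_le_card (filter_subset _ _)
    _ ≤ (VV L t x).card := by rw [h]; exact card_image_le

theorem LP_one {σ : ℝ} (hσ1 : σ ≤ 1) {L t : ℕ} (hL : 1 ≤ L) {x : ℤ}
    (h : (VV L t x).card = 1) : (LP σ L t x).card = 1 := by
  obtain ⟨z, hz⟩ := card_eq_one.1 h
  have h1 : ∀ j : ℕ, j < L → oc t (x + j) = z.1 := by
    intro j hj
    have hm : nx t x (0, (j : ℤ)) ∈ VV L t x := mem_image.2 ⟨j, mem_range.2 hj, rfl⟩
    rw [hz, mem_singleton, nx0] at hm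
    rw [← hm]
  have h2 : LP σ L t x = {(z.1 : ℤ)} := by
    ext y
    rw [mem_singleton]
    unfold LP LS
    rw [mem_filter, mem_image]
    constructor
    · rintro ⟨⟨j, hj, rfl⟩, -⟩
      rw [h1 j (mem_range.1 hj)]
    · rintro rfl
      refine ⟨⟨0, mem_range.2 hL, by rw [h1 0 hL]⟩, ?_⟩
      have h3 : (range L).filter (fun j : ℕ => (oc t (x + j) : ℤ) = (z.1 : ℤ)) = range L := by
        apply filter_true_of_mem
        intro j hj
        rw [h1 j (mem_range.1 hj)]
      rw [h3, card_range]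
      have h4 : (1 : ℝ) ≤ L := by exact_mod_cast hL
      calc (L : ℝ) ^ σ ≤ (L : ℝ) ^ (1 : ℝ) := Real.rpow_le_rpow_of_exponent_le h4 hσ1
        _ = L := Real.rpow_one _
  rw [h2, card_singleton]

theorem LP_abs {σ : ℝ} (hσ1 : σ ≤ 1) {L t : ℕ} (hL : 1 ≤ L) (x : ℤ) :
    |((LP σ L t x).card : ℝ) - 1| ≤ ((VV L t x).card : ℝ) - 1 := by
  have h0 : 1 ≤ (VV L t x).card := card_pos.2 (Nonempty.image ⟨0, mem_range.2 hL⟩ _)
  rcases h0.lt_or_eq with h | h
  · have h1 := LP_le_VV σ L t x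
    have h2 : (2 : ℝ) ≤ (VV L t x).card := by exact_mod_cast h
    have h3 : ((LP σ L t x).card : ℝ) ≤ (VV L t x).card := by exact_mod_cast h1
    have h4 : (0 : ℝ) ≤ (LP σ L t x).card := Nat.cast_nonneg _
    rw [abs_le]
    constructor <;> linarith
  · rw [LP_one hσ1 hL h.symm, ← h]
    simp

theorem meanP (h1 : S_Mean) (h2 : S_TightP) : S_MeanP := by
  intro γ hγ α₁ α₂ σ hR hσ0 hσ1 ht1 ht2 M₀ ε hM hε
  obtain ⟨C, hC, hm⟩ := h1 γ hγ 1 one_pos
  obtain ⟨D, hD⟩ : ∃ D, D = xx α₂ - xx α₁ := ⟨_, rfl⟩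
  obtain ⟨c, hc⟩ : ∃ c : ℝ, c = 2 / √Real.pi := ⟨_, rfl⟩
  have hc0 : 0 < c := by
    rw [hc]
    have := Real.pi_pos
    positivity
  have hγ0 : 0 < γ + 1 := by linarith [hγ.1]
  obtain ⟨κ, hκ0, hκ⟩ : ∃ κ : ℝ, 0 < κ ∧ (C + c * |D|) * κ ≤ ε / 2 := by
    have hp : 0 < C + c * |D| := by positivity
    exact ⟨ε / 2 / (C + c * |D|), by positivity, by field_simp; exact le_rfl⟩
  obtain ⟨t₁, hT⟩ := (h2 γ hγ α₁ α₂ σ hR hσ0 hσ1 ht1 ht2).2 κ M₀ (ε / 2) hκ0 hM (by positivity)
  obtain ⟨t₂, ht₂⟩ := exists_nat_ge (((γ + 1) * κ) ^ 2)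
  obtain ⟨B, hB⟩ : ∃ B, B = 1 + c * (|D| * M₀) := ⟨_, rfl⟩
  obtain ⟨K, hK⟩ := exists_nat_ge ((B + ε / 2) * (2 / ε))
  refine ⟨max t₁ (max t₂ 1), K, ?_⟩
  intro t ht L hL hlog M W hW
  have hta : t₁ ≤ t := (le_max_left _ _).trans ht
  have htb : t₂ ≤ t := (le_max_left _ _).trans ((le_max_right _ _).trans ht)
  have htc : 1 ≤ t := (le_max_right _ _).trans ((le_max_right _ _).trans ht)
  have ht0 : (0 : ℝ) < t := by exact_mod_cast htc
  have hst : 0 < √(t : ℝ) := Real.sqrt_pos.2 ht0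
  have hlog0 : 0 ≤ Real.log L := Real.log_natCast_nonneg L
  have hr0 : 0 ≤ Real.log L / √t := by positivity
  rw [← hD, ← hc]
  have hX : |EE t (fun x => ((LP σ L t x).card : ℝ)) - (1 + c * (D * Real.log L / √t))| ≤ ε / 2 := by
    rcases le_total (κ * √t) (Real.log L) with hcase | hcase
    · have := hT t hta L hL hcase hlog
      rwa [← hD, ← hc] at this
    · have hr : Real.log L / √t ≤ κ := by
        rw [div_le_iff₀ hst]
        exact hcase
      have hV : EE t (fun x => ((VV L t x).card : ℝ) - 1) ≤ C * κ := by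
        rcases Nat.lt_or_ge L 2 with hL2 | hL2
        · have hL1 : L = 1 := by omega
          have : (fun x => ((VV L t x).card : ℝ) - 1) = fun _ => 0 := by
            funext x
            have : (VV L t x).card = 1 := by
              rw [hL1]
              unfold VV
              simp
            rw [this]
            simp
          rw [this, EE_const]
          positivity
        · have hh : (γ + 1) * Real.log L ≤ t := by
            have e1 : (γ + 1) * κ ≤ √t := by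
              apply Real.le_sqrt_of_sq_le
              exact ht₂.trans (by exact_mod_cast htb)
            calc (γ + 1) * Real.log L ≤ (γ + 1) * (κ * √t) :=
                  mul_le_mul_of_nonneg_left hcase hγ0.le
              _ = ((γ + 1) * κ) * √t := by ring
              _ ≤ √t * √t := mul_le_mul_of_nonneg_right e1 hst.le
              _ = t := Real.mul_self_sqrt ht0.le
          exact (hm L t hL2 hh).trans (mul_le_mul_of_nonneg_left hr hC.le)
      have hA : |EE t (fun x => ((LP σ L t x).card : ℝ)) - 1| ≤ C * κ := by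
        have e1 : EE t (fun x => ((LP σ L t x).card : ℝ)) - 1 =
            EE t (fun x => ((LP σ L t x).card : ℝ) - 1) := by
          rw [EE_sub, EE_const]
        rw [e1]
        exact ((EE_abs t _).trans (EE_mono t fun x => LP_abs hσ1.le hL x)).trans hV
      have hB' : |c * (D * Real.log L / √t)| ≤ c * |D| * κ := by
        rw [abs_mul, abs_of_pos hc0, mul_div_assoc, abs_mul, abs_of_nonneg hr0, mul_assoc]
        exact mul_le_mul_of_nonneg_left (mul_le_mul_of_nonneg_left hr (abs_nonneg D)) hc0.le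
      have e3 : EE t (fun x => ((LP σ L t x).card : ℝ)) - (1 + c * (D * Real.log L / √t)) =
          (EE t (fun x => ((LP σ L t x).card : ℝ)) - 1) - c * (D * Real.log L / √t) := by ring
      rw [e3]
      have e4 : (C + c * |D|) * κ = C * κ + c * |D| * κ := by ring
      calc _ ≤ _ := abs_sub _ _
        _ ≤ C * κ + c * |D| * κ := add_le_add hA hB'
        _ ≤ ε / 2 := by linarith
  have hY : 1 + c * (D * Real.log L / √t) ≤ B := by
    rw [hB]
    have e1 : D * Real.log L / √t ≤ |D| * M₀ := by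
      rw [mul_div_assoc]
      have e2 : D * (Real.log L / √t) ≤ |D| * (Real.log L / √t) :=
        mul_le_mul_of_nonneg_right (le_abs_self D) hr0
      have e3 : Real.log L / √t ≤ M₀ := by
        rw [div_le_iff₀ hst]
        exact hlog
      exact e2.trans (mul_le_mul_of_nonneg_left e3 (abs_nonneg D))
    have := mul_le_mul_of_nonneg_left e1 hc0.le
    linarith
  have hsum := sum_per_abs (LP_per σ L t) (fun x => Nat.cast_nonneg _) M W
  obtain ⟨S, hS⟩ : ∃ S, S = ∑ n ∈ Ico M (M + W), ((LP σ L t n).card : ℝ) := ⟨_, rfl⟩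
  obtain ⟨E, hE⟩ : ∃ E, E = EE t (fun x => ((LP σ L t x).card : ℝ)) := ⟨_, rfl⟩
  obtain ⟨Y, hYd⟩ : ∃ Y, Y = 1 + c * (D * Real.log L / √t) := ⟨_, rfl⟩
  rw [← hS, ← hE] at hsum
  rw [← hE, ← hYd] at hX
  rw [← hYd] at hY
  rw [← hS, ← hYd]
  have hW0 : (0 : ℝ) ≤ W := Nat.cast_nonneg W
  have hWK : (K : ℝ) * 2 ^ t ≤ W := by exact_mod_cast hW
  have h2 : (0 : ℝ) < 2 ^ t := by positivity
  have hE1 : E ≤ B + ε / 2 := by
    have := (abs_le.1 hX).2
    linarith
  have hE2 : E * 2 ^ t ≤ ε / 2 * W := by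
    calc E * 2 ^ t ≤ (B + ε / 2) * 2 ^ t := mul_le_mul_of_nonneg_right hE1 h2.le
      _ = ε / 2 * ((B + ε / 2) * (2 / ε) * 2 ^ t) := by field_simp
      _ ≤ ε / 2 * (K * 2 ^ t) := by
        apply mul_le_mul_of_nonneg_left _ (by positivity)
        exact mul_le_mul_of_nonneg_right hK h2.le
      _ ≤ ε / 2 * W := mul_le_mul_of_nonneg_left hWK (by positivity)
  have hE3 : |(E - Y) * W| ≤ ε / 2 * W := by
    rw [abs_mul, abs_of_nonneg hW0]
    exact mul_le_mul_of_nonneg_right hX hW0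
  have e5 : S - Y * W = (S - E * W) + (E - Y) * W := by ring
  rw [e5]
  calc _ ≤ _ := abs_add_le _ _
    _ ≤ ε / 2 * W + ε / 2 * W := add_le_add (hsum.trans hE2) hE3
    _ = ε * W := by ring

end Pool.Agent.Q224.BT
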